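import Mathlib

/-!
Densities of product measures and the change of variables inequalities.
-/

set_option autoImplicit false

open MeasureTheory ProbabilityTheory Set
open scoped ENNReal NNReal

namespace Pool.Agent.H.MP_0cad2f_co.QS

/-- The integral of a product of functions of one variable each. -/
theorem lintegral_pi_prod {ι : Type*} [Fintype ι] [DecidableEq ι] {X : ι → Type*}
    [∀ i, MeasurableSpace (X i)] [∀ i, Nonempty (X i)] (μ : ∀ i, Measure (X i))
    [∀ i, SigmaFinite (μ i)] (f : ∀ i, X i → ℝ≥0∞) (hf : ∀ i, Measurable (f i)) :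
    ∫⁻ x, ∏ i, f i (x i) ∂(Measure.pi μ) = ∏ i, ∫⁻ y, f i y ∂(μ i) := by
  have hF : Measurable (fun x : ∀ i, X i => ∏ i, f i (x i)) :=
    Finset.measurable_prod _ fun i _ => (hf i).comp (measurable_pi_apply i)
  have key : ∀ s : Finset ι, ∀ x : ∀ i, X i, (∫⋯∫⁻_s, (fun x => ∏ i, f i (x i)) ∂μ) x =
      (∏ i ∈ s, ∫⁻ y, f i y ∂(μ i)) * ∏ i ∈ sᶜ, f i (x i) := by
    intro s
    induction s using Finset.induction_on with
    | empty => intro x; simp
    | insert i s hi ih =>
      intro x
      rw [lmarginal_insert _ hF hi]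
      have h1 : ∀ y, (∫⋯∫⁻_s, (fun x => ∏ i, f i (x i)) ∂μ) (Function.update x i y) =
          ((∏ i ∈ s, ∫⁻ y, f i y ∂(μ i)) * ∏ j ∈ (insert i s)ᶜ, f j (x j)) * f i y := by
        intro y
        rw [ih]
        have h2 : sᶜ = insert i (insert i s)ᶜ := by
          ext j
          simp only [Finset.mem_compl, Finset.mem_insert]
          by_cases h : j = i
          · subst h; simp [hi]
          · simp [h]
        rw [h2, Finset.prod_insert (by simp), Function.update_self]
        have h3 : ∏ j ∈ (insert i s)ᶜ, f j (Function.update x i y j) =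
            ∏ j ∈ (insert i s)ᶜ, f j (x j) := by
          refine Finset.prod_congr rfl fun j hj => ?_
          have : j ≠ i := by
            rintro rfl
            simp at hj
          rw [Function.update_of_ne this]
        rw [h3]
        ring
      simp only [h1]
      rw [lintegral_const_mul _ (hf i), Finset.prod_insert hi]
      ring
  rw [lintegral_eq_lmarginal_univ (fun i => Classical.arbitrary (X i)), key]
  simp

/-- A product of measures with densities. -/
theorem pi_withDensity {ι : Type*} [Fintype ι] [DecidableEq ι] {X : ι → Type*}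
    [∀ i, MeasurableSpace (X i)] [∀ i, Nonempty (X i)] (μ : ∀ i, Measure (X i))
    [∀ i, SigmaFinite (μ i)] (f : ∀ i, X i → ℝ≥0∞) (hf : ∀ i, Measurable (f i))
    [∀ i, SigmaFinite ((μ i).withDensity (f i))] :
    Measure.pi (fun i => (μ i).withDensity (f i)) =
      (Measure.pi μ).withDensity (fun x => ∏ i, f i (x i)) := by
  refine Measure.pi_eq fun s hs => ?_
  rw [withDensity_apply _ (MeasurableSet.univ_pi hs), ← lintegral_indicator (MeasurableSet.univ_pi hs)]
  have h1 : ∀ x : ∀ i, X i, (Set.univ.pi s).indicator (fun x => ∏ i, f i (x i)) x =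
      ∏ i, (s i).indicator (f i) (x i) := by
    intro x
    by_cases hx : x ∈ Set.univ.pi s
    · rw [Set.indicator_of_mem hx]
      refine Finset.prod_congr rfl fun i _ => ?_
      rw [Set.indicator_of_mem (hx i (Set.mem_univ i))]
    · rw [Set.indicator_of_notMem hx]
      simp only [Set.mem_pi, Set.mem_univ, forall_const, not_forall] at hx
      obtain ⟨i, hi⟩ := hx
      exact (Finset.prod_eq_zero (Finset.mem_univ i) (Set.indicator_of_notMem hi _)).symm
  simp only [h1]
  rw [lintegral_pi_prod μ _ fun i => (hf i).indicator (hs i)]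
  refine Finset.prod_congr rfl fun i _ => ?_
  rw [lintegral_indicator (hs i), withDensity_apply _ (hs i)]

/-- A product of one-dimensional Gaussian measures has the product density. -/
theorem gaussian_pi {ι : Type*} [Fintype ι] [DecidableEq ι] (c : ι → ℝ) {v : ℝ≥0} (hv : v ≠ 0) :
    Measure.pi (fun j => gaussianReal (c j) v) =
      (volume : Measure (ι → ℝ)).withDensity (fun x => ∏ j, gaussianPDF (c j) v (x j)) := by
  have h2 : ∀ j, gaussianReal (c j) v = (volume : Measure ℝ).withDensity (gaussianPDF (c j) v) :=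
    fun j => gaussianReal_of_var_ne_zero _ hv
  haveI : ∀ j, SigmaFinite ((volume : Measure ℝ).withDensity (gaussianPDF (c j) v)) := by
    intro j
    rw [← h2 j]
    infer_instance
  have h := pi_withDensity (fun _ : ι => (volume : Measure ℝ)) (fun j => gaussianPDF (c j) v)
    (fun j => measurable_gaussianPDF _ _)
  simp only [h2]
  rw [h]
  rfl

/-- The ratio of the densities at two points. -/
theorem gaussian_ratio {ι : Type*} [Fintype ι] (c : ι → ℝ) {v : ℝ≥0} (hv : v ≠ 0)
    (x y : ι → ℝ) {r : ℝ} (h : ∑ j, (y j - c j) ^ 2 - ∑ j, (x j - c j) ^ 2 ≤ 2 * v * r) :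
    ∏ j, gaussianPDF (c j) v (x j) ≤
      ENNReal.ofReal (Real.exp r) * ∏ j, gaussianPDF (c j) v (y j) := by
  unfold gaussianPDF
  rw [← ENNReal.ofReal_prod_of_nonneg fun j _ => gaussianPDFReal_nonneg _ _ _,
    ← ENNReal.ofReal_prod_of_nonneg fun j _ => gaussianPDFReal_nonneg _ _ _,
    ← ENNReal.ofReal_mul (Real.exp_pos r).le]
  refine ENNReal.ofReal_le_ofReal ?_
  unfold gaussianPDFReal
  rw [Finset.prod_mul_distrib, Finset.prod_mul_distrib, ← Real.exp_sum, ← Real.exp_sum]
  have hv' : (0 : ℝ) < v := by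
    have := pos_iff_ne_zero.2 hv
    exact_mod_cast this
  have h1 : (∑ j, -(x j - c j) ^ 2 / (2 * (v : ℝ))) ≤
      r + ∑ j, -(y j - c j) ^ 2 / (2 * (v : ℝ)) := by
    rw [← Finset.sum_div, ← Finset.sum_div, Finset.sum_neg_distrib, Finset.sum_neg_distrib,
      ← sub_nonneg]
    have h2 : r + -(∑ j, (y j - c j) ^ 2) / (2 * (v : ℝ)) - -(∑ j, (x j - c j) ^ 2) / (2 * (v : ℝ)) =
        (2 * v * r - (∑ j, (y j - c j) ^ 2 - ∑ j, (x j - c j) ^ 2)) / (2 * v) := by
      field_simp
      ring
    rw [h2]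
    exact div_nonneg (by linarith) (by positivity)
  have h3 := Real.exp_le_exp.2 h1
  rw [Real.exp_add] at h3
  have h4 : (0 : ℝ) ≤ ∏ _j : ι, (Real.sqrt (2 * Real.pi * v))⁻¹ :=
    Finset.prod_nonneg fun _ _ => by positivity
  calc _ ≤ (∏ _j : ι, (Real.sqrt (2 * Real.pi * v))⁻¹) *
        (Real.exp r * Real.exp (∑ j, -(y j - c j) ^ 2 / (2 * (v : ℝ)))) :=
        mul_le_mul_of_nonneg_left h3 h4
    _ = _ := by ring

/-- Change of variables with a density: if `T` multiplies the volume by `κ` (`map T μ = κ • μ`) and the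
density does not decrease by more than the factor `C` on `S`, then
`∫_S F (T x) g x ≤ C κ ∫ F g`. -/
theorem quasi {E : Type*} [MeasurableSpace E] {μ : Measure E} {T : E → E} (hT : Measurable T)
    {κ : ℝ≥0∞} (hκ : μ.map T ≤ κ • μ) {g : E → ℝ≥0∞} (hg : Measurable g) {C : ℝ≥0∞}
    {S : Set E} (hS : MeasurableSet S) (h : ∀ x ∈ S, g x ≤ C * g (T x))
    {F : E → ℝ≥0∞} (hF : Measurable F) :
    ∫⁻ x in S, F (T x) ∂(μ.withDensity g) ≤ C * κ * ∫⁻ x, F x ∂(μ.withDensity g) := by
  rw [restrict_withDensity hS]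
  change ∫⁻ x, (F ∘ T) x ∂((μ.restrict S).withDensity g) ≤ _
  rw [lintegral_withDensity_eq_lintegral_mul _ hg (hF.comp hT),
    lintegral_withDensity_eq_lintegral_mul _ hg hF]
  calc ∫⁻ x in S, (g * (fun x => F (T x))) x ∂μ
      ≤ ∫⁻ x in S, C * (g (T x) * F (T x)) ∂μ := by
        refine setLIntegral_mono (by fun_prop) fun x hx => ?_
        show g x * F (T x) ≤ C * (g (T x) * F (T x))
        rw [← mul_assoc]
        gcongr
        exact h x hx
    _ ≤ ∫⁻ x, C * (g (T x) * F (T x)) ∂μ := setLIntegral_le_lintegral _ _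
    _ = C * ∫⁻ x, g (T x) * F (T x) ∂μ := lintegral_const_mul _ (by fun_prop)
    _ = C * ∫⁻ y, g y * F y ∂(μ.map T) := by
        rw [lintegral_map (by fun_prop) hT]
    _ ≤ C * ∫⁻ y, g y * F y ∂(κ • μ) := by
        gcongr
    _ = C * κ * ∫⁻ y, (g * F) y ∂μ := by
        rw [lintegral_smul_measure, smul_eq_mul, mul_assoc]
        rfl

end Pool.Agent.H.MP_0cad2f_co.QS
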