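import Pool.Agent.H.MP_0cad2f_co.qs.Update

/-!
The changes of variables of the slope lemma and of the short lemma.
-/

set_option autoImplicit false

open MeasureTheory ProbabilityTheory Set
open scoped ENNReal NNReal

namespace Pool.Agent.H.MP_0cad2f_co.QS

variable {ι κ : Type*} [Fintype ι] [DecidableEq ι] [Fintype κ] [DecidableEq κ]

/-- The point `a i` moved towards the point `a m`. -/
def moveA (i m : ι) (s : ℝ) (a : ι → κ → ℝ) : ι → κ → ℝ :=
  Function.update a i ((1 - s) • a i + s • a m)

/-- The weights that keep `∑ w i • a i` fixed under `moveA i m s`. -/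
noncomputable def moveW (i m : ι) (s : ℝ) (w : ι → ℝ) : ι → ℝ :=
  Function.update (Function.update w m (w m - s / (1 - s) * w i)) i (w i / (1 - s))

theorem moveA_self (i m : ι) (s : ℝ) (a : ι → κ → ℝ) :
    moveA i m s a i = (1 - s) • a i + s • a m := Function.update_self ..

theorem moveA_ne {i m l : ι} (h : l ≠ i) (s : ℝ) (a : ι → κ → ℝ) : moveA i m s a l = a l :=
  Function.update_of_ne h ..

theorem moveW_self (i m : ι) (s : ℝ) (w : ι → ℝ) : moveW i m s w i = w i / (1 - s) :=
  Function.update_self ..

theorem moveW_other {i m : ι} (h : m ≠ i) (s : ℝ) (w : ι → ℝ) :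
    moveW i m s w m = w m - s / (1 - s) * w i := by
  unfold moveW
  rw [Function.update_of_ne h, Function.update_self]

theorem moveW_ne {i m l : ι} (h : l ≠ i) (h' : l ≠ m) (s : ℝ) (w : ι → ℝ) :
    moveW i m s w l = w l := by
  unfold moveW
  rw [Function.update_of_ne h, Function.update_of_ne h']

theorem measurable_moveA (i m : ι) (s : ℝ) : Measurable (moveA (κ := κ) i m s) := by
  rw [measurable_pi_iff]
  intro l
  by_cases h : l = i
  · subst h
    simp only [moveA_self]
    fun_prop
  · simp only [moveA_ne h]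
    fun_prop

theorem measurable_moveW (i m : ι) (s : ℝ) : Measurable (moveW i m s) := by
  rw [measurable_pi_iff]
  intro l
  by_cases h : l = i
  · subst h
    simp only [moveW_self]
    fun_prop
  by_cases h' : l = m
  · subst h'
    simp only [moveW_other h]
    fun_prop
  · simp only [moveW_ne h h']
    fun_prop

/-- The combination with the new weights is the old one. -/
theorem moveW_sum {i m : ι} (h : m ≠ i) {s : ℝ} (hs : s < 1) (w : ι → ℝ) (a : ι → κ → ℝ)
    (B : Finset ι) (hi : i ∈ B) (hm : m ∈ B) :
    ∑ l ∈ B, moveW i m s w l • moveA i m s a l = ∑ l ∈ B, w l • a l := by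
  have hs' : (1 - s) ≠ 0 := by linarith
  have hm' : m ∈ B.erase i := Finset.mem_erase.2 ⟨h, hm⟩
  rw [← Finset.add_sum_erase B _ hi, ← Finset.add_sum_erase _ _ hm', ← Finset.add_sum_erase B _ hi,
    ← Finset.add_sum_erase _ _ hm', moveW_self, moveA_self, moveW_other h, moveA_ne h]
  have h1 : ∑ x ∈ (B.erase i).erase m, moveW i m s w x • moveA i m s a x =
      ∑ x ∈ (B.erase i).erase m, w x • a x := by
    refine Finset.sum_congr rfl fun x hx => ?_
    rw [Finset.mem_erase, Finset.mem_erase] at hx
    rw [moveW_ne hx.2.1 hx.1, moveA_ne hx.2.1]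
  rw [h1, ← add_assoc, ← add_assoc]
  congr 1
  ext j
  simp only [Pi.add_apply, Pi.smul_apply, smul_eq_mul]
  field_simp
  ring

/-- The change of the weights does not increase integrals. -/
theorem lintegral_moveW {i m : ι} (h : m ≠ i) {s : ℝ} (h0 : 0 ≤ s) (hs : s < 1)
    {F : (ι → ℝ) → ℝ≥0∞} (hF : Measurable F) :
    ∫⁻ w, F (moveW i m s w) ≤ ∫⁻ w, F w := by
  have hs' : 0 < 1 - s := by linarith
  have h1 := coord_affine i (κ := (1 - s)⁻¹) (inv_pos.2 hs') (h := fun _ => 0) measurable_const
    (fun _ _ => rfl) hF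
  have hF1 : Measurable fun w : ι → ℝ => F (Function.update w i ((1 - s)⁻¹ * w i + 0)) := by
    refine hF.comp ?_
    rw [measurable_pi_iff]
    intro l
    by_cases hl : l = i
    · subst hl
      simp only [Function.update_self]
      fun_prop
    · simp only [Function.update_of_ne hl]
      fun_prop
  have h2 := coord_affine m (κ := 1) one_pos (h := fun w => -(s / (1 - s)) * w i) (by fun_prop)
    (fun w x => by simp only [Function.update_of_ne h.symm]) hF1
  rw [inv_one, ENNReal.ofReal_one, one_mul] at h2
  calc ∫⁻ w, F (moveW i m s w) = _ := by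
        refine lintegral_congr fun w => ?_
        congr 1
        funext l
        by_cases hl : l = i
        · subst hl
          rw [moveW_self, Function.update_self, Function.update_of_ne h.symm]
          field_simp
          ring
        by_cases hl' : l = m
        · subst hl'
          rw [moveW_other h, Function.update_of_ne h, Function.update_self]
          ring
        · rw [moveW_ne hl hl', Function.update_of_ne hl, Function.update_of_ne hl']
    _ ≤ ∫⁻ w, F (Function.update w i ((1 - s)⁻¹ * w i + 0)) := h2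
    _ ≤ ENNReal.ofReal (1 - s)⁻¹⁻¹ * ∫⁻ w, F w := h1
    _ ≤ 1 * ∫⁻ w, F w := by
        gcongr
        rw [inv_inv]
        exact ENNReal.ofReal_le_one.2 (by linarith)
    _ = _ := one_mul _

/-- The change of the points for Gaussian points. -/
theorem lintegral_moveA {i m : ι} (h : m ≠ i) (c : ι → κ → ℝ) {v : ℝ≥0} (hv : v ≠ 0) {s R : ℝ}
    (h0 : 0 ≤ s) (h1 : s * Fintype.card κ ≤ 1 / 2) (hs : s < 1)
    (hb : s * R ≤ 2 * v) {F : (ι → κ → ℝ) → ℝ≥0∞} (hF : Measurable F) :
    ∫⁻ a in {a : ι → κ → ℝ | ∑ j, (a m j - c i j) ^ 2 ≤ R}, F (moveA i m s a)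
        ∂(Measure.pi fun l => Measure.pi fun j => gaussianReal (c l j) v) ≤
      ENNReal.ofReal (2 * Real.exp 1) *
        ∫⁻ a, F a ∂(Measure.pi fun l => Measure.pi fun j => gaussianReal (c l j) v) := by
  refine pi_update (fun l => Measure.pi fun j => gaussianReal (c l j) v) i
    (T := fun a y => (1 - s) • y + s • a m) (by fun_prop)
    (fun a y => by simp only [Function.update_of_ne h]) ?_ ?_ (fun a ha G hG => ?_) hF
  · exact measurableSet_le (by fun_prop) measurable_const
  · intro a y
    simp only [Set.mem_setOf_eq, Function.update_of_ne h]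
  · refine shrink (c i) (a m) hv h0 h1 hs ?_ hG
    have ha' : ∑ j, (a m j - c i j) ^ 2 ≤ R := ha
    exact (mul_le_mul_of_nonneg_left ha' h0).trans hb

end Pool.Agent.H.MP_0cad2f_co.QS
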