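import Pool.Agent.H.MP_0cad2f_co.qs.Shift

/-!
The change of the weights in the slope lemma.
-/

set_option autoImplicit false

open MeasureTheory ProbabilityTheory Set
open scoped ENNReal NNReal

namespace Pool.Agent.H.MP_0cad2f_co.QS

variable {ι : Type*} [Fintype ι] [DecidableEq ι]

/-- Change the weight `w l` so that `∑ i, w i * θ i` is multiplied by `K`. -/
noncomputable def slopeW (l : ι) (K : ℝ) (θ : ι → ℝ) (w : ι → ℝ) : ι → ℝ :=
  Function.update w l (w l + (K - 1) * (∑ i, w i * θ i) / θ l)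

theorem slopeW_self (l : ι) (K : ℝ) (θ w : ι → ℝ) :
    slopeW l K θ w l = w l + (K - 1) * (∑ i, w i * θ i) / θ l := Function.update_self ..

theorem slopeW_ne {l i : ι} (h : i ≠ l) (K : ℝ) (θ w : ι → ℝ) : slopeW l K θ w i = w i :=
  Function.update_of_ne h ..

theorem slopeW_eq (l : ι) (K : ℝ) (θ w : ι → ℝ) :
    slopeW l K θ w = w + Pi.single l ((K - 1) * (∑ i, w i * θ i) / θ l) := by
  funext i
  by_cases h : i = l
  · subst h
    simp [slopeW_self]
  · simp [slopeW_ne h, h]

/-- Linear functionals of the new weights. -/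
theorem slopeW_sum (l : ι) (K : ℝ) (θ w φ : ι → ℝ) :
    ∑ i, slopeW l K θ w i * φ i =
      ∑ i, w i * φ i + (K - 1) * (∑ i, w i * θ i) / θ l * φ l := by
  rw [slopeW_eq]
  simp only [Pi.add_apply, add_mul, Finset.sum_add_distrib]
  congr 1
  rw [Finset.sum_eq_single l]
  · simp
  · intro i _ hi
    simp [hi]
  · simp

theorem slopeW_sum_self {l : ι} (K : ℝ) {θ : ι → ℝ} (hl : θ l ≠ 0) (w : ι → ℝ) :
    ∑ i, slopeW l K θ w i * θ i = K * ∑ i, w i * θ i := by
  rw [slopeW_sum]
  field_simp
  ring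

theorem measurable_slopeW (l : ι) (K : ℝ) (θ : ι → ℝ) : Measurable (slopeW l K θ) := by
  rw [measurable_pi_iff]
  intro i
  by_cases h : i = l
  · subst h
    simp only [slopeW_self]
    fun_prop
  · simp only [slopeW_ne h]
    fun_prop

/-- The change of the weights divides integrals by `K`. -/
theorem lintegral_slopeW (l : ι) {K : ℝ} (hK : 0 < K) {θ : ι → ℝ} (hl : θ l ≠ 0)
    {F : (ι → ℝ) → ℝ≥0∞} (hF : Measurable F) :
    ∫⁻ w, F (slopeW l K θ w) ≤ ENNReal.ofReal K⁻¹ * ∫⁻ w, F w := by
  have h1 := coord_affine l hK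
    (h := fun w => (K - 1) * (∑ i ∈ Finset.univ.erase l, w i * θ i) / θ l) (by fun_prop)
    (fun w x => by
      have h2 : ∑ i ∈ Finset.univ.erase l, Function.update w l x i * θ i =
          ∑ i ∈ Finset.univ.erase l, w i * θ i := by
        refine Finset.sum_congr rfl fun i hi => ?_
        rw [Function.update_of_ne (Finset.ne_of_mem_erase hi)]
      simp only [h2]) hF
  refine le_trans (le_of_eq ?_) h1
  refine lintegral_congr fun w => ?_
  unfold slopeW
  congr 2
  rw [← Finset.add_sum_erase Finset.univ _ (Finset.mem_univ l)]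
  field_simp
  ring

end Pool.Agent.H.MP_0cad2f_co.QS
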