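import Pool.Agent.H.MP_0cad2f_co.qs.Quasi

/-!
Change of one coordinate of a product measure.
-/

set_option autoImplicit false

open MeasureTheory ProbabilityTheory Set
open scoped ENNReal NNReal

namespace Pool.Agent.H.MP_0cad2f_co.QS

/-- Change of one coordinate `l`, with the other coordinates as parameters. -/
theorem pi_update {ι : Type*} [Fintype ι] [DecidableEq ι] {X : ι → Type*}
    [∀ i, MeasurableSpace (X i)] (μ : ∀ i, Measure (X i)) [∀ i, SigmaFinite (μ i)] (l : ι)
    {T : (∀ i, X i) → X l → X l} (hT : Measurable fun p : (∀ i, X i) × X l => T p.1 p.2)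
    (hT' : ∀ x y, T (Function.update x l y) = T x) {A : Set (∀ i, X i)} (hA : MeasurableSet A)
    (hA' : ∀ x y, Function.update x l y ∈ A ↔ x ∈ A) {C : ℝ≥0∞}
    (h : ∀ x ∈ A, ∀ F : X l → ℝ≥0∞, Measurable F → ∫⁻ y, F (T x y) ∂(μ l) ≤ C * ∫⁻ y, F y ∂(μ l))
    {F : (∀ i, X i) → ℝ≥0∞} (hF : Measurable F) :
    ∫⁻ x in A, F (Function.update x l (T x (x l))) ∂(Measure.pi μ) ≤
      C * ∫⁻ x, F x ∂(Measure.pi μ) := by
  have hU : Measurable fun x : (∀ i, X i) => Function.update x l (T x (x l)) := by
    rw [measurable_pi_iff]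
    intro i
    by_cases hi : i = l
    · subst hi
      simp only [Function.update_self]
      exact hT.comp (measurable_id.prodMk (measurable_pi_apply i))
    · simp only [Function.update_of_ne hi]
      exact measurable_pi_apply i
  rw [← lintegral_indicator hA, ← lintegral_const_mul _ hF]
  refine lintegral_le_of_lmarginal_le {l} ((hF.comp hU).indicator hA) (hF.const_mul _) ?_
  rw [lmarginal_singleton, lmarginal_singleton]
  intro x
  by_cases hx : x ∈ A
  · have h1 : ∀ y, A.indicator (fun x => F (Function.update x l (T x (x l))))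
        (Function.update x l y) = F (Function.update x l (T x y)) := by
      intro y
      rw [Set.indicator_of_mem ((hA' x y).2 hx), hT', Function.update_self,
        Function.update_idem]
    show ∫⁻ y, A.indicator (fun x => F (Function.update x l (T x (x l))))
        (Function.update x l y) ∂(μ l) ≤ ∫⁻ y, C * F (Function.update x l y) ∂(μ l)
    simp only [h1]
    have hm : Measurable fun y => F (Function.update x l y) := hF.comp (measurable_update x)
    rw [lintegral_const_mul _ hm]
    exact h x hx (fun y => F (Function.update x l y)) hm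
  · have h1 : ∀ y, A.indicator (fun x => F (Function.update x l (T x (x l))))
        (Function.update x l y) = 0 := by
      intro y
      rw [Set.indicator_of_notMem fun h2 => hx ((hA' x y).1 h2)]
    show ∫⁻ y, A.indicator (fun x => F (Function.update x l (T x (x l))))
        (Function.update x l y) ∂(μ l) ≤ ∫⁻ y, C * F (Function.update x l y) ∂(μ l)
    simp only [h1, lintegral_zero]
    exact zero_le

/-- An affine map of the line. -/
theorem line_affine {κ : ℝ} (hκ : 0 < κ) (b : ℝ) {F : ℝ → ℝ≥0∞} (hF : Measurable F) :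
    ∫⁻ y, F (κ * y + b) = ENNReal.ofReal κ⁻¹ * ∫⁻ y, F y := by
  have h1 : Measure.map (fun y : ℝ => κ * y + b) volume = ENNReal.ofReal κ⁻¹ • volume := by
    have h2 : (fun y : ℝ => κ * y + b) = (fun y => y + b) ∘ (fun y => κ * y) := rfl
    rw [h2, ← Measure.map_map (by fun_prop) (by fun_prop), Real.map_volume_mul_left hκ.ne',
      Measure.map_smul, (measurePreserving_add_right volume b).map_eq, abs_of_pos (inv_pos.2 hκ)]
  rw [← lintegral_map hF (by fun_prop), h1, lintegral_smul_measure, smul_eq_mul]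

/-- An affine change of one real coordinate. -/
theorem coord_affine {ι : Type*} [Fintype ι] [DecidableEq ι] (l : ι) {κ : ℝ} (hκ : 0 < κ)
    {h : (ι → ℝ) → ℝ} (hh : Measurable h) (hh' : ∀ w x, h (Function.update w l x) = h w)
    {F : (ι → ℝ) → ℝ≥0∞} (hF : Measurable F) :
    ∫⁻ w, F (Function.update w l (κ * w l + h w)) ≤ ENNReal.ofReal κ⁻¹ * ∫⁻ w, F w := by
  have h1 := pi_update (fun _ : ι => (volume : Measure ℝ)) l
    (T := fun w y => κ * y + h w) (by fun_prop) (fun w x => by simp only [hh'])
    (A := Set.univ) MeasurableSet.univ (fun _ _ => by simp) (C := ENNReal.ofReal κ⁻¹)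
    (fun w _ G hG => (line_affine hκ (h w) hG).le) hF
  rw [Measure.restrict_univ] at h1
  exact h1

/-- The contraction towards `b` for a Gaussian vector. -/
theorem shrink {ι : Type*} [Fintype ι] [DecidableEq ι] (c b : ι → ℝ) {v : ℝ≥0} (hv : v ≠ 0)
    {s : ℝ} (h0 : 0 ≤ s) (h1 : s * Fintype.card ι ≤ 1 / 2) (h2 : s < 1)
    (hb : s * ∑ j, (b j - c j) ^ 2 ≤ 2 * v) {F : (ι → ℝ) → ℝ≥0∞} (hF : Measurable F) :
    ∫⁻ x, F ((1 - s) • x + s • b) ∂(Measure.pi fun j => gaussianReal (c j) v) ≤
      ENNReal.ofReal (2 * Real.exp 1) *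
        ∫⁻ x, F x ∂(Measure.pi fun j => gaussianReal (c j) v) := by
  have hs : 0 < 1 - s := by linarith
  have hpow : (1 : ℝ) / 2 ≤ (1 - s) ^ Fintype.card ι := by
    have := one_add_mul_le_pow (show (-2 : ℝ) ≤ -s by linarith) (Fintype.card ι)
    have h3 : 1 + (Fintype.card ι : ℝ) * -s = 1 - s * Fintype.card ι := by ring
    have h4 : (1 : ℝ) + -s = 1 - s := by ring
    rw [h3, h4] at this
    linarith
  rw [gaussian_pi c hv]
  have hT : Measurable fun x : ι → ℝ => (1 - s) • x + s • b := by fun_prop
  have hmap : Measure.map (fun x : ι → ℝ => (1 - s) • x + s • b) volume ≤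
      ENNReal.ofReal 2 • (volume : Measure (ι → ℝ)) := by
    have h5 : (fun x : ι → ℝ => (1 - s) • x + s • b) =
        (fun x => x + s • b) ∘ (fun x => (1 - s) • x) := rfl
    rw [h5, ← Measure.map_map (by fun_prop) (by fun_prop), Measure.map_addHaar_smul _ hs.ne',
      Measure.map_smul, (measurePreserving_add_right volume (s • b)).map_eq]
    intro A
    rw [Measure.smul_apply, Measure.smul_apply, smul_eq_mul, smul_eq_mul]
    gcongr
    rw [Module.finrank_fintype_fun_eq_card, abs_of_pos (by positivity)]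
    rw [show (2 : ℝ) = (1 / 2)⁻¹ by norm_num]
    exact inv_anti₀ (by norm_num) hpow
  have hg : Measurable fun x : ι → ℝ => ∏ j, gaussianPDF (c j) v (x j) :=
    Finset.measurable_prod _ fun j _ => (measurable_gaussianPDF _ _).comp (measurable_pi_apply j)
  have h6 := quasi (μ := (volume : Measure (ι → ℝ))) hT hmap hg (S := Set.univ) MeasurableSet.univ
    (C := ENNReal.ofReal (Real.exp 1)) (fun x _ => ?_) hF
  · rw [Measure.restrict_univ] at h6
    refine h6.trans (le_of_eq ?_)
    congr 1
    rw [← ENNReal.ofReal_mul (Real.exp_pos 1).le, mul_comm]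
  · refine gaussian_ratio c hv x _ ?_
    have h7 : ∀ j, (((1 - s) • x + s • b) j - c j) ^ 2 ≤
        (1 - s) * (x j - c j) ^ 2 + s * (b j - c j) ^ 2 := by
      intro j
      simp only [Pi.add_apply, Pi.smul_apply, smul_eq_mul]
      nlinarith [mul_nonneg (mul_nonneg h0 hs.le) (sq_nonneg (x j - b j))]
    have h8 := Finset.sum_le_sum fun j (_ : j ∈ Finset.univ) => h7 j
    rw [Finset.sum_add_distrib, ← Finset.mul_sum, ← Finset.mul_sum] at h8
    have h9 : 0 ≤ ∑ j, (x j - c j) ^ 2 := Finset.sum_nonneg fun _ _ => sq_nonneg _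
    nlinarith

end Pool.Agent.H.MP_0cad2f_co.QS
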